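import Mathlib
import Pool.Agent.V7H20.PP2.Crit

/-!
# Lower bounds for the growth rate of potentially positive elements

If each letter `x i ⁻¹` of the reduced word of `u` is separated, by letters `x i ⁻¹` only, from a
letter `x j ^ (±1)` with `j < i` on its left or on its right, or is padded on both sides by positive
powers of `x (i+1)` followed by a letter of index `≤ i` (with a condition on this letter), then `u`
is potentially positive. Counting gives `γ_3 ≥ 4.0632`, `γ_4 ≥ 5.6507` and `γ_5 ≥ 7.2466`.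
-/

set_option autoImplicit false

open Filter Topology

namespace Pool.Agent.Results.MP_bec853_al.RunLowerBoundsH20

/-- `u` is positive: in its reduced word no generator appears with a negative exponent. -/
def IsPositive {r : ℕ} (u : FreeGroup (Fin r)) : Prop := ∀ a ∈ u.toWord, a.2 = true

/-- `u` is potentially positive: some automorphism makes it positive. -/
def PotentiallyPositive {r : ℕ} (u : FreeGroup (Fin r)) : Prop :=
  ∃ α : FreeGroup (Fin r) ≃* FreeGroup (Fin r), IsPositive (α u)

/-- the number of potentially positive elements of length `n` in the free group of rank `r` -/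
noncomputable def p (r n : ℕ) : ℕ :=
  {u : FreeGroup (Fin r) | u.norm = n ∧ PotentiallyPositive u}.ncard

/-- the exponential growth rate of the potentially positive elements -/
noncomputable def gamma (r : ℕ) : ℝ :=
  limsup (fun n : ℕ => (p r n : ℝ) ^ ((1 : ℝ) / (n : ℝ))) atTop

/-- The list `l` starts with `a ≥ 0` letters `x i ⁻¹` followed by a letter `x` of index `< i`
(the sign of `x` is arbitrary). -/
def SmallAfter {r : ℕ} (i : Fin r) (l : List (Fin r × Bool)) : Prop :=
  ∃ (a : ℕ) (x : Fin r × Bool) (l' : List (Fin r × Bool)),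
    l = List.replicate a (i, false) ++ x :: l' ∧ x.1 < i

/-- The list `l` starts with `t + 1` letters `x (i+1)` followed by a letter `y` of index `≤ i`; if
`y = x j ⁻¹`, then the rest `l'` starts with letters `x j ⁻¹` followed by a letter of index `< j`. -/
def Padded {r : ℕ} (i : Fin r) (l : List (Fin r × Bool)) : Prop :=
  ∃ (t : ℕ) (k : Fin r) (y : Fin r × Bool) (l' : List (Fin r × Bool)), (k : ℕ) = i + 1 ∧
    l = List.replicate (t + 1) (k, true) ++ y :: l' ∧ y.1 ≤ i ∧ (y.2 = false → SmallAfter y.1 l')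

/-- Each letter `x i ⁻¹` of `l` is separated, by letters `x i ⁻¹` only, from a letter
`x j ^ (±1)` with `j < i`, on its left or on its right, or is padded on both sides. -/
def Guarded {r : ℕ} (l : List (Fin r × Bool)) : Prop :=
  ∀ (u v : List (Fin r × Bool)) (i : Fin r), l = u ++ (i, false) :: v →
    SmallAfter i u.reverse ∨ SmallAfter i v ∨ (Padded i u.reverse ∧ Padded i v)

/-- **Guarded words are potentially positive, in every rank; lower bounds for `γ_3`, `γ_4`, `γ_5`.** -/
theorem result :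
    (∀ (r : ℕ) (u : FreeGroup (Fin r)), Guarded u.toWord → PotentiallyPositive u) ∧
    ((∃ c : ℝ, 0 < c ∧ ∀ n : ℕ, 3 ≤ n → c * (4.0632 : ℝ) ^ n ≤ p 3 n) ∧ (4.0632 : ℝ) ≤ gamma 3) ∧
    ((∃ c : ℝ, 0 < c ∧ ∀ n : ℕ, 3 ≤ n → c * (5.6507 : ℝ) ^ n ≤ p 4 n) ∧ (5.6507 : ℝ) ≤ gamma 4) ∧
    ((∃ c : ℝ, 0 < c ∧ ∀ n : ℕ, 3 ≤ n → c * (7.2466 : ℝ) ^ n ≤ p 5 n) ∧ (7.2466 : ℝ) ≤ gamma 5) := by
  have e3 : ((40632 : ℕ) / (10000 : ℕ) : ℝ) = 4.0632 := by norm_num
  have e4 : ((56507 : ℕ) / (10000 : ℕ) : ℝ) = 5.6507 := by norm_num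
  have e5 : ((72466 : ℕ) / (10000 : ℕ) : ℝ) = 7.2466 := by norm_num
  have h3 := Pool.Agent.V7H20.PP2.growth3
  have h4 := Pool.Agent.V7H20.PP2.growth4
  have h5 := Pool.Agent.V7H20.PP2.growth5
  rw [e3] at h3
  rw [e4] at h4
  rw [e5] at h5
  exact ⟨fun r u hu => Pool.Agent.V7H20.PP2.pp_of_guarded u hu, h3, h4, h5⟩

end Pool.Agent.Results.MP_bec853_al.RunLowerBoundsH20
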